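import Pool.Agent.Lib.MP_2541dc_coB.Main

/-!
# The order of the symmetric Zarankiewicz function for `t + 1` and for `t`
-/

set_option autoImplicit false

namespace Pool.Agent.Results.MP_2541dc_co.DownwardClosed

open Zar93 Filter

/-- `z(k^(t+1); t+1)^4 ≤ C_t k^(6t+5) z(k^t; t)`; hence the weak form of the conjecture for some
`t'` implies it for all `2 ≤ t ≤ t'`, and `z(n; t) = o(n^(2-1/t))` implies the same for all larger
`t`. -/
theorem result :
    (∀ t, 2 ≤ t → ∃ C : ℕ, ∀ k : ℕ,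
      z (k ^ (t + 1)) (t + 1) ^ 4 ≤ C * k ^ (6 * t + 5) * z (k ^ t) t) ∧
    (∀ t t', 2 ≤ t → t ≤ t' → Weak t' → Weak t) ∧
    ((∀ t, 4 ≤ t → Weak t) ↔ ∀ T, ∃ t, T ≤ t ∧ Weak t) ∧
    (∀ t t', 2 ≤ t → t ≤ t' → Tendsto (ratio t) atTop (nhds 0) →
      Tendsto (ratio t') atTop (nhds 0)) :=
  main

end Pool.Agent.Results.MP_2541dc_co.DownwardClosed
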