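import Pool.Agent.Lib.MP_2541dc_coH58.Mean

/-!
# MP_2541dc_co: slow variation of the symmetric Zarankiewicz ratio

The cluster points of `z(n; t) / n ^ (2 - 1 / t)` form an interval; convergence of the mean value,
or along one sequence with ratios tending to `1`, gives convergence; a lower bound along one
sequence with bounded ratios gives a lower bound for all `n`.
-/

set_option autoImplicit false

namespace Pool.Agent.Results.MP_2541dc_co.SlowVariation

open ZarSym Filter Topology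

theorem result (t : ℕ) (ht : 2 ≤ t) :
    (∀ m n : ℕ, 1 ≤ m → m ≤ n →
      ((m : ℝ) / n) ^ ((2 : ℝ) - 1 / t) * ratio t m ≤ ratio t n ∧
      ratio t n ≤ ((n : ℝ) / m) ^ (1 / (t : ℝ)) * ratio t m) ∧
    (∀ x y c : ℝ, MapClusterPt x atTop (ratio t) → MapClusterPt y atTop (ratio t) →
      x ≤ c → c ≤ y → MapClusterPt c atTop (ratio t)) ∧
    (∀ c : ℝ, Tendsto (fun N : ℕ => (∑ n ∈ Finset.Icc 1 N, ratio t n) / (N : ℝ)) atTop (𝓝 c) →
      Tendsto (ratio t) atTop (𝓝 c)) ∧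
    ∀ u : ℕ → ℕ, StrictMono u →
      (∀ c : ℝ, Tendsto (fun k => (u (k + 1) : ℝ) / u k) atTop (𝓝 1) →
        Tendsto (fun k => ratio t (u k)) atTop (𝓝 c) → Tendsto (ratio t) atTop (𝓝 c)) ∧
      ∀ C c : ℝ, (∀ k, (u (k + 1) : ℝ) ≤ C * u k) → 0 < c → (∀ k, c ≤ ratio t (u k)) →
        ∃ c' : ℝ, 0 < c' ∧ ∀ n, 1 ≤ n → c' < ratio t n :=
  ZarSym.final t ht

end Pool.Agent.Results.MP_2541dc_co.SlowVariation
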